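import Mathlib

/-!
# Heisenberg groups have Lie exponent at most `2 + 1 / n`

In the Heisenberg group of dimension `2 n + 1`, the three Lagrangian subgroups `{(x, 0, 0)}`,
`{(0, y, 0)}` and `{(x, x, 0)}` of dimension `n` satisfy the triple product property: the
obstruction is the quadratic form `|x| ^ 2`, which is definite over the reals. The Lie algebra is
nilpotent, so it is its own Cartan subalgebra and the rank is `2 n + 1`. Hence the Lie exponent is
at most `(2 n + 1) / n = 2 + 1 / n`.
-/

open scoped Manifold ContDiff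
open Module

namespace Pool.Agent.Results.MP_1ece31_lc.HeisenbergExponent

/-! ### The definitions used in the statement -/

section Defs

variable (E : Type) [NormedAddCommGroup E] [NormedSpace ℝ E] [CompleteSpace E]
  (G : Type) [TopologicalSpace G] [ChartedSpace E G] [Group G]

/-- `M` is a (nonempty, embedded) submanifold of `G` of dimension `m`: near every point of `M` there
is a smooth chart of `G` in which `M` is a linear subspace of dimension `m`. -/
def IsSubmanifold (M : Set G) (m : ℕ) : Prop :=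
  M.Nonempty ∧ ∀ x ∈ M, ∃ e ∈ IsManifold.maximalAtlas 𝓘(ℝ, E) ∞ G, x ∈ e.source ∧
    ∃ F : Submodule ℝ E, finrank ℝ F = m ∧ ∀ y ∈ e.source, y ∈ M ↔ e y ∈ F

variable {G} in
/-- `Q(X)` is the set of the elements `x x'⁻¹` with `x, x' ∈ X`. -/
def quot (X : Set G) : Set G := {g | ∃ x ∈ X, ∃ x' ∈ X, g = x * x'⁻¹}

variable {G} in
/-- The triple product property. -/
def TPP (S T U : Set G) : Prop :=
  ∀ s ∈ quot S, ∀ t ∈ quot T, ∀ u ∈ quot U, s * t * u = 1 → s = 1 ∧ t = 1 ∧ u = 1

variable [LieGroup 𝓘(ℝ, E) ∞ G]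

/-- A smooth Lie group is a Lie group of the smoothness class for which Mathlib defines the Lie
algebra. -/
instance instLieGroupMin : LieGroup 𝓘(ℝ, E) (minSmoothness ℝ 3) G :=
  LieGroup.of_le (n := ∞) (by
    rw [minSmoothness_of_isRCLikeNormedField]
    exact ENat.LEInfty.out)

/-- `r` is the rank of `G`: the dimension of a Cartan subalgebra of the Lie algebra of `G`. -/
def IsRank (r : ℕ) : Prop :=
  ∃ H : LieSubalgebra ℝ (GroupLieAlgebra 𝓘(ℝ, E) G), H.IsCartanSubalgebra ∧ finrank ℝ H = r

/-- The Lie exponent `ω(G)`: the infimum of `r / (m̄ - (dim G - r) / 2)` over the triples of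
submanifolds of dimensions `m₁, m₂, m₃` with the triple product property and
`m̄ = (m₁ + m₂ + m₃) / 3 > (dim G - r) / 2`, where `r` is the rank of `G`. The infimum of the empty
set is `⊤`. -/
noncomputable def lieExponent : EReal :=
  sInf {w : EReal | ∃ (r m₁ m₂ m₃ : ℕ) (M₁ M₂ M₃ : Set G), IsRank E G r ∧
    IsSubmanifold E G M₁ m₁ ∧ IsSubmanifold E G M₂ m₂ ∧ IsSubmanifold E G M₃ m₃ ∧
    TPP M₁ M₂ M₃ ∧ ((finrank ℝ E : ℝ) - r) / 2 < ((m₁ + m₂ + m₃ : ℕ) : ℝ) / 3 ∧
    w = (((r : ℝ) / (((m₁ + m₂ + m₃ : ℕ) : ℝ) / 3 - ((finrank ℝ E : ℝ) - r) / 2) : ℝ) : EReal)}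

end Defs

/-- The vector space `ℝ ^ n × ℝ ^ n × ℝ`. -/
abbrev Model (n : ℕ) : Type := (Fin n → ℝ) × (Fin n → ℝ) × ℝ

/-- The standard symplectic form of the first two components. -/
def symp {n : ℕ} (g h : Model n) : ℝ := ∑ i, (g.1 i * h.2.1 i - g.2.1 i * h.1 i)

/-- The Heisenberg group of dimension `2 n + 1`. -/
def Heis (n : ℕ) : Type := Model n

variable {n : ℕ}

/-- The element with the given coordinates. -/
def Heis.mk (v : Model n) : Heis n := v

/-- The coordinates of an element. -/
def Heis.val (g : Heis n) : Model n := g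

noncomputable instance : TopologicalSpace (Heis n) := inferInstanceAs (TopologicalSpace (Model n))

noncomputable instance : ChartedSpace (Model n) (Heis n) :=
  inferInstanceAs (ChartedSpace (Model n) (Model n))

noncomputable instance : Mul (Heis n) where
  mul g h := Heis.mk (g.val.1 + h.val.1, g.val.2.1 + h.val.2.1,
    g.val.2.2 + h.val.2.2 + symp g.val h.val / 2)

noncomputable instance : One (Heis n) where
  one := Heis.mk 0

noncomputable instance : Inv (Heis n) where
  inv g := Heis.mk (-g.val)

lemma Heis.ext {g h : Heis n} (h1 : ∀ i, g.val.1 i = h.val.1 i) (h2 : ∀ i, g.val.2.1 i = h.val.2.1 i)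
    (h3 : g.val.2.2 = h.val.2.2) : g = h :=
  Prod.ext (funext h1) (Prod.ext (funext h2) h3)

lemma val_mul (g h : Heis n) : (g * h).val = (g.val.1 + h.val.1, g.val.2.1 + h.val.2.1,
    g.val.2.2 + h.val.2.2 + symp g.val h.val / 2) := rfl

lemma val_one : (1 : Heis n).val = 0 := rfl

lemma val_mk (v : Model n) : (Heis.mk v).val = v := rfl

lemma val_inv (g : Heis n) : (g⁻¹).val = -g.val := rfl

lemma symp_def (g h : Model n) : symp g h = ∑ i, (g.1 i * h.2.1 i - g.2.1 i * h.1 i) := rfl

noncomputable instance : Group (Heis n) where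
  mul_assoc a b c := by
    refine Heis.ext (fun i => ?_) (fun i => ?_) ?_
    · simp [val_mul, add_assoc]
    · simp [val_mul, add_assoc]
    · simp only [val_mul, symp_def, Pi.add_apply]
      have h1 : ∀ i, (a.val.1 i + b.val.1 i) * c.val.2.1 i - (a.val.2.1 i + b.val.2.1 i) * c.val.1 i
          = (a.val.1 i * c.val.2.1 i - a.val.2.1 i * c.val.1 i) +
            (b.val.1 i * c.val.2.1 i - b.val.2.1 i * c.val.1 i) := fun i => by ring
      have h2 : ∀ i, a.val.1 i * (b.val.2.1 i + c.val.2.1 i) - a.val.2.1 i *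
          (b.val.1 i + c.val.1 i) = (a.val.1 i * b.val.2.1 i - a.val.2.1 i * b.val.1 i) +
            (a.val.1 i * c.val.2.1 i - a.val.2.1 i * c.val.1 i) := fun i => by ring
      simp only [h1, h2, Finset.sum_add_distrib]
      ring
  one_mul a := by
    refine Heis.ext (fun i => ?_) (fun i => ?_) ?_ <;> simp [val_mul, val_one, symp_def]
  mul_one a := by
    refine Heis.ext (fun i => ?_) (fun i => ?_) ?_ <;> simp [val_mul, val_one, symp_def]
  inv_mul_cancel a := by
    refine Heis.ext (fun i => ?_) (fun i => ?_) ?_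
    · simp [val_mul, val_one, val_inv]
    · simp [val_mul, val_one, val_inv]
    · simp only [val_mul, val_one, val_inv, symp_def, Prod.snd_neg, Prod.fst_neg, Pi.neg_apply,
        neg_add_cancel, zero_add, Prod.snd_zero]
      have h1 : ∀ i, -a.val.1 i * a.val.2.1 i - -a.val.2.1 i * a.val.1 i = 0 := fun i => by ring
      simp only [h1, Finset.sum_const_zero, zero_div]

lemma symp_add_left (g g' h : Model n) : symp (g + g') h = symp g h + symp g' h := by
  simp only [symp_def, ← Finset.sum_add_distrib]
  refine Finset.sum_congr rfl fun i _ => ?_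
  simp
  ring

lemma symp_smul_left (c : ℝ) (g h : Model n) : symp (c • g) h = c * symp g h := by
  simp only [symp_def, Finset.mul_sum]
  refine Finset.sum_congr rfl fun i _ => ?_
  simp
  ring

lemma symp_swap (g h : Model n) : symp g h = -symp h g := by
  simp only [symp_def, ← Finset.sum_neg_distrib]
  refine Finset.sum_congr rfl fun i _ => ?_
  ring

lemma symp_add_right (g h h' : Model n) : symp g (h + h') = symp g h + symp g h' := by
  rw [symp_swap, symp_add_left, symp_swap g h, symp_swap g h']
  ring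

lemma symp_smul_right (c : ℝ) (g h : Model n) : symp g (c • h) = c * symp g h := by
  rw [symp_swap, symp_smul_left, symp_swap g h]
  ring

/-- The symplectic form as a bilinear map. -/
noncomputable def sympB (n : ℕ) : Model n →ₗ[ℝ] Model n →ₗ[ℝ] ℝ :=
  LinearMap.mk₂ ℝ symp symp_add_left symp_smul_left symp_add_right symp_smul_right

/-- The symplectic form as a continuous bilinear map. -/
noncomputable def sympL (n : ℕ) : Model n →L[ℝ] Model n →L[ℝ] ℝ :=
  LinearMap.toContinuousBilinearMap (sympB n)

lemma sympL_apply (g h : Model n) : sympL n g h = symp g h := rfl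

/-- The third basis vector. -/
def ez (n : ℕ) : Model n := (0, 0, 1)

lemma mul_eq (g h : Heis n) : g * h = Heis.mk (g.val + h.val + (sympL n g.val h.val / 2) • ez n) := by
  refine Heis.ext (fun i => ?_) (fun i => ?_) ?_
  · simp [val_mul, val_mk, ez]
  · simp [val_mul, val_mk, ez]
  · simp [val_mul, val_mk, ez, sympL_apply]

lemma contDiff_mulModel (n : ℕ) : ContDiff ℝ ∞ fun p : Model n × Model n =>
    p.1 + p.2 + (sympL n p.1 p.2 / 2) • ez n := by
  have h1 : ContDiff ℝ ∞ fun p : Model n × Model n => sympL n p.1 p.2 :=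
    (sympL n).isBoundedBilinearMap.contDiff
  fun_prop

instance instIsManifoldHeis : IsManifold 𝓘(ℝ, Model n) ∞ (Heis n) :=
  inferInstanceAs (IsManifold 𝓘(ℝ, Model n) ∞ (Model n))

instance instLieGroupHeis : LieGroup 𝓘(ℝ, Model n) ∞ (Heis n) where
  contMDiff_mul := by
    have h : ContMDiff 𝓘(ℝ, Model n × Model n) 𝓘(ℝ, Model n) ∞
        (fun p : Model n × Model n => p.1 + p.2 + (sympL n p.1 p.2 / 2) • ez n) :=
      (contDiff_mulModel n).contMDiff
    rw [modelWithCornersSelf_prod, ← chartedSpaceSelf_prod] at h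
    have h2 : (fun p : Heis n × Heis n => p.1 * p.2) =
        (fun p : Model n × Model n => p.1 + p.2 + (sympL n p.1 p.2 / 2) • ez n) := by
      funext p
      exact mul_eq p.1 p.2
    rw [h2]
    exact h
  contMDiff_inv := by
    have h : ContMDiff 𝓘(ℝ, Model n) 𝓘(ℝ, Model n) ∞ (fun p : Model n => -p) :=
      contDiff_neg.contMDiff
    exact h

/-- The derivative of the left multiplication. -/
noncomputable def dmul (g : Model n) : Model n →L[ℝ] Model n :=
  ContinuousLinearMap.id ℝ (Model n) + ((1 / 2 : ℝ) • sympL n g).smulRight (ez n)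

lemma dmul_apply (g v : Model n) : dmul g v = v + (symp g v / 2) • ez n := by
  simp only [dmul, add_apply, ContinuousLinearMap.coe_id', id_eq,
    ContinuousLinearMap.smulRight_apply, smul_apply, sympL_apply, smul_eq_mul]
  congr 2
  ring

lemma hasFDerivAt_mul (g x : Model n) :
    HasFDerivAt (fun h : Model n => g + h + (sympL n g h / 2) • ez n) (dmul g) x := by
  have h1 : HasFDerivAt (fun h : Model n => g + h) (ContinuousLinearMap.id ℝ (Model n)) x :=
    (hasFDerivAt_id x).const_add g
  have h2 : HasFDerivAt (fun h : Model n => ((1 / 2 : ℝ) • sympL n g) h)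
      ((1 / 2 : ℝ) • sympL n g) x := ContinuousLinearMap.hasFDerivAt _
  have h3 := h1.add (h2.smul_const (ez n))
  have h4 : (fun h : Model n => g + h + (sympL n g h / 2) • ez n) =
      (fun h => g + h) + fun h => ((1 / 2 : ℝ) • sympL n g) h • ez n := by
    funext h
    simp only [Pi.add_apply, FunLike.coe_smul, Pi.smul_apply, smul_eq_mul]
    congr 2
    ring
  rw [h4]
  exact h3

/-- The left invariant vector field of `v`. -/
noncomputable def invField (v : Model n) : Model n → Model n := fun g => v + (symp g v / 2) • ez n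

lemma invField_eq (v : Model n) : @Eq (Model n → Model n)
    (mulInvariantVectorField (I := 𝓘(ℝ, Model n)) (G := Heis n) v) (invField v) := by
  refine funext fun (g : Model n) => ?_
  have h1 : mfderiv 𝓘(ℝ, Model n) 𝓘(ℝ, Model n)
      (fun h : Model n => g + h + (sympL n g h / 2) • ez n) (0 : Model n) =
      dmul g := by
    rw [mfderiv_eq_fderiv]
    exact (hasFDerivAt_mul _ _).fderiv
  have h2 : (fun h : Heis n => (Heis.mk g) * h) =
      fun h : Model n => g + h + (sympL n g h / 2) • ez n := by
    funext h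
    exact mul_eq _ h
  have h3 : @Eq (Model n) (mulInvariantVectorField (I := 𝓘(ℝ, Model n)) (G := Heis n) v g)
      (dmul g v) := by
    unfold mulInvariantVectorField
    change @Eq (Model n) ((mfderiv 𝓘(ℝ, Model n) 𝓘(ℝ, Model n)
      (fun h : Heis n => (Heis.mk g) * h) (1 : Heis n)) v) (dmul g v)
    rw [h2]
    exact congrArg (fun L : Model n →L[ℝ] Model n => L v) h1
  rw [h3]
  exact dmul_apply _ _

lemma hasFDerivAt_invField (v x : Model n) :
    HasFDerivAt (invField v) ((-((1 / 2 : ℝ) • sympL n v)).smulRight (ez n)) x := by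
  have h2 : HasFDerivAt (fun h : Model n => (-((1 / 2 : ℝ) • sympL n v)) h)
      (-((1 / 2 : ℝ) • sympL n v)) x := ContinuousLinearMap.hasFDerivAt _
  have h3 := (h2.smul_const (ez n)).const_add v
  have h4 : invField v = fun h => v + (-((1 / 2 : ℝ) • sympL n v)) h • ez n := by
    funext h
    simp only [invField, neg_apply, smul_apply,
      sympL_apply, smul_eq_mul]
    rw [symp_swap h v]
    congr 2
    ring
  rw [h4]
  exact h3

open VectorField in
/-- The Lie bracket of vector fields on the vector space, at the origin. -/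
noncomputable def brk (V W : Model n → Model n) : Model n :=
  mlieBracket 𝓘(ℝ, Model n) (M := Model n) V W (0 : Model n)

open VectorField in
lemma brk_eq (V W : Model n → Model n) : brk V W = lieBracket ℝ V W 0 := by
  have h := congrFun (mlieBracketWithin_eq_lieBracketWithin (𝕜 := ℝ) (E := Model n)
    (V := V) (W := W) (s := Set.univ)) (0 : Model n)
  rw [lieBracketWithin_univ] at h
  exact h

/-- The Lie algebra of the Heisenberg group. -/
abbrev LieHeis (n : ℕ) : Type := GroupLieAlgebra 𝓘(ℝ, Model n) (Heis n)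

/-- A vector as an element of the Lie algebra. -/
def ofM (v : Model n) : LieHeis n := v

/-- The Lie bracket, in coordinates. -/
noncomputable def lb (v w : Model n) : Model n := (⁅ofM v, ofM w⁆ : LieHeis n)

/-- The left invariant vector field, in coordinates. -/
noncomputable def mulField (v : Model n) : Model n → Model n :=
  mulInvariantVectorField (I := 𝓘(ℝ, Model n)) (G := Heis n) v

lemma mulField_eq (v : Model n) : mulField v = invField v := invField_eq v

lemma lb_eq (v w : Model n) : lb v w = symp v w • ez n := by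
  have h1 : lb v w = brk (mulField v) (mulField w) :=
    GroupLieAlgebra.bracket_def (ofM v) (ofM w)
  rw [h1, mulField_eq, mulField_eq, brk_eq, VectorField.lieBracket,
    (hasFDerivAt_invField v 0).fderiv, (hasFDerivAt_invField w 0).fderiv]
  have h0 : ∀ u : Model n, invField u 0 = u := by
    intro u
    have : symp (0 : Model n) u = 0 := by simp [symp_def]
    rw [invField, this]
    simp
  rw [h0, h0]
  simp only [ContinuousLinearMap.smulRight_apply, neg_apply,
    smul_apply, sympL_apply, smul_eq_mul]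
  rw [symp_swap w v, ← sub_smul]
  congr 1
  ring

instance instFiniteLieHeis : Module.Finite ℝ (LieHeis n) :=
  inferInstanceAs (Module.Finite ℝ (Model n))

lemma lb_lb (x y : Model n) : lb x (lb x y) = 0 := by
  have h4 : symp (n := n) x (ez n) = 0 := by simp [symp_def, ez]
  rw [lb_eq x y, lb_eq, symp_smul_right, h4, mul_zero, zero_smul]

lemma lb_ez (y : Model n) : lb (ez n) y = 0 := by
  have h4 : symp (n := n) (ez n) y = 0 := by simp [symp_def, ez]
  rw [lb_eq, h4, zero_smul]

lemma isNilpotent_lieHeis (n : ℕ) : LieRing.IsNilpotent (LieHeis n) := by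
  rw [LieAlgebra.isNilpotent_iff_forall (R := ℝ)]
  intro x
  refine ⟨2, ?_⟩
  ext y
  rw [pow_two]
  exact lb_lb x y

lemma finrank_model (n : ℕ) : finrank ℝ (Model n) = 2 * n + 1 := by
  simp
  ring

lemma isRank_heis (n : ℕ) : IsRank (Model n) (Heis n) (2 * n + 1) := by
  have := isNilpotent_lieHeis n
  refine ⟨⊤, inferInstance, ?_⟩
  have h1 : finrank ℝ (⊤ : LieSubalgebra ℝ (LieHeis n)) = finrank ℝ (LieHeis n) := by
    exact finrank_top ℝ (LieHeis n)
  exact h1.trans (finrank_model n)

/-- A linear subspace is a submanifold. -/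
lemma isSubmanifold_submodule (F : Submodule ℝ (Model n)) :
    IsSubmanifold (Model n) (Heis n) {g : Heis n | g.val ∈ F} (finrank ℝ F) := by
  refine ⟨⟨Heis.mk 0, F.zero_mem⟩, fun x _ => ?_⟩
  refine ⟨chartAt (Model n) x, IsManifold.chart_mem_maximalAtlas x, mem_chart_source _ x, F, rfl,
    fun y _ => Iff.rfl⟩

/-- The only Cartan subalgebra is the whole Lie algebra. -/
lemma isRank_iff (n r : ℕ) : IsRank (Model n) (Heis n) r ↔ r = 2 * n + 1 := by
  constructor
  · rintro ⟨H, hH, rfl⟩
    have hez : ofM (ez n) ∈ H := by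
      rw [← hH.self_normalizing, LieSubalgebra.mem_normalizer_iff]
      intro y _
      have h1 : (⁅ofM (ez n), y⁆ : LieHeis n) = 0 := lb_ez y
      rw [h1]
      exact H.zero_mem
    have htop : H = ⊤ := by
      rw [eq_top_iff]
      intro x _
      rw [← hH.self_normalizing, LieSubalgebra.mem_normalizer_iff]
      intro y _
      have h1 : (⁅x, y⁆ : LieHeis n) = symp (n := n) x y • ofM (ez n) := lb_eq x y
      rw [h1]
      exact H.smul_mem _ hez
    rw [htop]
    exact (finrank_top ℝ (LieHeis n)).trans (finrank_model n)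
  · rintro rfl
    exact isRank_heis n

/-- The embedding `x ↦ (α x, β x, 0)`. -/
def emb (n : ℕ) (α β : ℝ) : (Fin n → ℝ) →ₗ[ℝ] Model n where
  toFun x := (α • x, β • x, 0)
  map_add' x y := by simp
  map_smul' c x := by
    simp only [RingHom.id_apply, Prod.smul_mk, smul_zero, smul_comm c]

/-- The Lagrangian subgroup `{(α x, β x, 0)}`. -/
def lag (n : ℕ) (α β : ℝ) : Set (Heis n) := {g | g.val ∈ LinearMap.range (emb n α β)}

lemma isSubmanifold_lag (n : ℕ) (α β : ℝ) (h : α ≠ 0 ∨ β ≠ 0) :
    IsSubmanifold (Model n) (Heis n) (lag n α β) n := by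
  have h1 := isSubmanifold_submodule (LinearMap.range (emb n α β))
  have h2 : finrank ℝ (LinearMap.range (emb n α β)) = n := by
    rw [LinearMap.finrank_range_of_inj]
    · simp
    · intro x y hxy
      simp only [emb, LinearMap.coe_mk, AddHom.coe_mk, Prod.mk.injEq, and_true] at hxy
      rcases h with h | h
      · exact smul_right_injective _ h hxy.1
      · exact smul_right_injective _ h hxy.2
  rw [h2] at h1
  exact h1

lemma quot_lag (n : ℕ) (α β : ℝ) {g : Heis n} (hg : g ∈ quot (lag n α β)) :
    ∃ x : Fin n → ℝ, g.val = (α • x, β • x, 0) := by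
  obtain ⟨a, ⟨x, hx⟩, b, ⟨y, hy⟩, rfl⟩ := hg
  simp only [emb, LinearMap.coe_mk, AddHom.coe_mk] at hx hy
  refine ⟨x - y, ?_⟩
  rw [val_mul, val_inv, ← hx, ← hy]
  refine Prod.ext ?_ (Prod.ext ?_ ?_)
  · simp [sub_eq_add_neg]
  · simp [sub_eq_add_neg]
  · simp only [Prod.neg_mk, neg_zero, add_zero, zero_add, symp_def, Pi.smul_apply, Pi.neg_apply,
      smul_eq_mul]
    have h1 : ∀ i, α * x i * -(β * y i) - β * x i * -(α * y i) = 0 := fun i => by ring
    simp only [h1, Finset.sum_const_zero, zero_div]

lemma tpp_lag (n : ℕ) : TPP (lag n 1 0) (lag n 0 1) (lag n 1 1) := by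
  intro s hs t ht u hu h
  obtain ⟨a, ha⟩ := quot_lag n 1 0 hs
  obtain ⟨b, hb⟩ := quot_lag n 0 1 ht
  obtain ⟨c, hc⟩ := quot_lag n 1 1 hu
  have hv : (s * t * u).val = 0 := by rw [h]; rfl
  rw [val_mul, val_mul, ha, hb, hc] at hv
  simp only [one_smul, zero_smul, add_zero, zero_add, symp_def, Prod.mk_eq_zero, Pi.zero_apply,
    zero_mul, sub_zero] at hv
  obtain ⟨h1, h2, h3⟩ := hv
  have h1' : ∀ i, a i = -c i := fun i => by
    have := congrFun h1 i
    simp only [Pi.add_apply, Pi.zero_apply] at this
    linarith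
  have h2' : ∀ i, b i = -c i := fun i => by
    have := congrFun h2 i
    simp only [Pi.add_apply, Pi.zero_apply] at this
    linarith
  have h4 : ∑ i, c i ^ 2 = 0 := by
    have e1 : ∑ i, a i * b i = ∑ i, c i ^ 2 :=
      Finset.sum_congr rfl fun i _ => by rw [h1', h2']; ring
    have e2 : ∑ i, (a i * c i - b i * c i) = 0 :=
      Finset.sum_eq_zero fun i _ => by rw [h1', h2']; ring
    rw [e1, e2] at h3
    linarith
  have hc0 : ∀ i, c i = 0 := fun i => by
    have := (Finset.sum_eq_zero_iff_of_nonneg fun i _ => sq_nonneg (c i)).1 h4 i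
      (Finset.mem_univ i)
    exact pow_eq_zero_iff (two_ne_zero) |>.1 this
  have ha0 : a = 0 := funext fun i => by rw [h1', hc0]; simp
  have hb0 : b = 0 := funext fun i => by rw [h2', hc0]; simp
  have hc0' : c = 0 := funext hc0
  rw [ha0] at ha
  rw [hb0] at hb
  rw [hc0'] at hc
  simp only [smul_zero] at ha hb hc
  exact ⟨ha, hb, hc⟩

/-- **Lie groups with small Lie exponent.** For `n ≥ 1` the Heisenberg group of dimension
`2 n + 1` is a Lie group of rank `2 n + 1` with Lie exponent at most `2 + 1 / n`. In particular the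
Heisenberg group of dimension `5` has Lie exponent less than `3`, and Lie exponents can be
arbitrarily close to `2`. -/
theorem result :
    (∀ n : ℕ, T2Space (Heis n) ∧ SecondCountableTopology (Heis n) ∧
      LieGroup 𝓘(ℝ, Model n) ∞ (Heis n) ∧ finrank ℝ (Model n) = 2 * n + 1 ∧
      ∀ r, IsRank (Model n) (Heis n) r ↔ r = 2 * n + 1) ∧
    (∀ n : ℕ, 1 ≤ n → lieExponent (Model n) (Heis n) ≤ ((2 + 1 / (n : ℝ) : ℝ) : EReal)) ∧
    lieExponent (Model 2) (Heis 2) < 3 ∧
    ∀ ε : ℝ, 0 < ε → ∃ n : ℕ, 1 ≤ n ∧
      lieExponent (Model n) (Heis n) < ((2 + ε : ℝ) : EReal) := by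
  have main : ∀ n : ℕ, 1 ≤ n →
      lieExponent (Model n) (Heis n) ≤ ((2 + 1 / (n : ℝ) : ℝ) : EReal) := by
    intro n hn
    have hn' : (0 : ℝ) < n := by exact_mod_cast hn
    refine sInf_le ⟨2 * n + 1, n, n, n, lag n 1 0, lag n 0 1, lag n 1 1, isRank_heis n,
      isSubmanifold_lag n 1 0 (Or.inl one_ne_zero), isSubmanifold_lag n 0 1 (Or.inr one_ne_zero),
      isSubmanifold_lag n 1 1 (Or.inl one_ne_zero), tpp_lag n, ?_, ?_⟩
    · rw [finrank_model]
      push_cast
      linarith
    · rw [finrank_model]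
      congr 1
      push_cast
      have h1 : ((n : ℝ) + n + n) / 3 - (2 * (n : ℝ) + 1 - (2 * n + 1)) / 2 = n := by ring
      rw [h1]
      field_simp
  refine ⟨fun n => ⟨inferInstanceAs (T2Space (Model n)),
    inferInstanceAs (SecondCountableTopology (Model n)), inferInstance, finrank_model n,
    isRank_iff n⟩, main, ?_, fun ε hε => ?_⟩
  · refine (main 2 (by norm_num)).trans_lt ?_
    have : ((3 : EReal)) = ((3 : ℝ) : EReal) := by norm_cast
    rw [this, EReal.coe_lt_coe_iff]
    norm_num
  · obtain ⟨n, hn⟩ := exists_nat_gt (1 / ε)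
    have hn' : (0 : ℝ) < n := lt_trans (by positivity) hn
    refine ⟨n, by exact_mod_cast hn', (main n (by exact_mod_cast hn')).trans_lt ?_⟩
    rw [EReal.coe_lt_coe_iff]
    have : 1 / (n : ℝ) < ε := by
      rw [div_lt_iff₀ hn']
      rw [div_lt_iff₀ hε] at hn
      linarith
    linarith

end Pool.Agent.Results.MP_1ece31_lc.HeisenbergExponent
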